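import Mathlib
import Pool.Agent.N604.MW.DFin
import Pool.Agent.N732.ArbDiag2

/-!
# Generic diagonal forms: `2k` variables in arbitrary sparse sets and two primes

For every `k ≥ 2` and almost every `(α_1, ..., α_{2k+2})` with positive coordinates:

1. there is `δ > 0` such that for ARBITRARY sets `T`, `T'` of `k`-tuples of integers in `[X, 2X]` with
   `|T| |T'| ≥ X ^ (2k - δ)` (`X` a large power of `2`), every integer `N` of the size `X ^ k` has at least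
   `κ |T| |T'| X ^ (2 - k) / (log N) ^ 2` representations
   `N = ∑_{i ≤ k} ⌊α_i t_i^k⌋ + ∑_{i ≤ k} ⌊α_{k+i} t'_i^k⌋ + ⌊α_{2k+1} p^k⌋ + ⌊α_{2k+2} q^k⌋`,
   `t ∈ T`, `t' ∈ T'`, `p`, `q` prime (the expected order);
2. there is `δ > 0` such that for ARBITRARY sets `A_1, ..., A_{2k}` of natural numbers, each with at least
   `x ^ (1 - δ)` elements in `[x, 2x]` for all large `x`, every large integer is
   `∑_{i ≤ 2k} ⌊α_i a_i^k⌋ + ⌊α_{2k+1} p^k⌋ + ⌊α_{2k+2} q^k⌋` with `a_i ∈ A_i` and primes `p`, `q`.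
-/

set_option autoImplicit false

namespace Pool.Agent.Results.MP_570bef_nt.ArbitrarySets

open MeasureTheory

/-- the sum of the integer parts of `α_i n_i ^ k` -/
noncomputable def val (k : ℕ) {s : ℕ} (α : Fin s → ℝ) (n : Fin s → ℕ) : ℤ := ∑ i, ⌊α i * (n i : ℝ) ^ k⌋

/-- the `k`-tuples of integers in `[X, 2 X]` -/
def box (k X : ℕ) : Finset (Fin k → ℕ) := Fintype.piFinset fun _ => Finset.Icc X (2 * X)

/-- `A` has at least `x ^ (1 - δ)` elements in `[x, 2 x]`, for all large `x` -/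
def Large (δ : ℝ) (A : Set ℕ) : Prop := ∃ x0 : ℕ, ∀ x : ℕ, x0 ≤ x →
  (x : ℝ) ^ (1 - δ) ≤ ({a : ℕ | a ∈ A ∧ x ≤ a ∧ a ≤ 2 * x}.ncard : ℝ)

theorem result (k : ℕ) (hk : 2 ≤ k) :
    ∀ᵐ α : Fin (k + k + 2) → ℝ, (∀ i, 0 < α i) →
      (∃ δ κ : ℝ, 0 < δ ∧ 0 < κ ∧ ∃ v ν0 : ℕ, 1 ≤ v ∧ ∀ ν : ℕ, ν0 ≤ ν →
        ∀ T T' : Finset (Fin k → ℕ), T ⊆ box k (2 ^ ν) → T' ⊆ box k (2 ^ ν) →
          ((2 : ℝ) ^ ν) ^ (2 * (k : ℝ) - δ) ≤ T.card * T'.card →
        ∀ N : ℕ, v * (2 ^ ν) ^ k ≤ N → N ≤ 2 ^ k * (v * (2 ^ ν) ^ k) →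
          ∃ S : Finset ((Fin k → ℕ) × (Fin k → ℕ) × (Fin 2 → ℕ)),
            (∀ z ∈ S, z.1 ∈ T ∧ z.2.1 ∈ T' ∧ (∀ j, (z.2.2 j).Prime) ∧
              val k α (Fin.append (Fin.append z.1 z.2.1) z.2.2) = N) ∧
            κ * (T.card * T'.card) * ((2 : ℝ) ^ ν) ^ (2 - (k : ℝ)) / Real.log N ^ 2 ≤ S.card) ∧
      (∃ δ : ℝ, 0 < δ ∧ ∀ A : Fin (k + k) → Set ℕ, (∀ i, Large δ (A i)) → ∃ N0 : ℕ, ∀ N : ℕ, N0 ≤ N →
        ∃ n : Fin (k + k + 2) → ℕ, (∀ i : Fin (k + k), n (Fin.castAdd 2 i) ∈ A i) ∧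
          (∀ j : Fin 2, (n (Fin.natAdd (k + k) j)).Prime) ∧ val k α n = N) := by
  have h1 := Pool.Agent.N645.PD.ddio (k + k + 2)
  have h2 := Pool.Agent.N618.PD.pull (k + k + 2) k (fun i => Fin.castAdd 2 (Fin.castAdd k i))
    (fun i j h => Fin.castAdd_injective k k (Fin.castAdd_injective (k + k) 2 h)) _
    (Pool.Agent.N604.MW.dmean_generic k hk)
  have h3 := Pool.Agent.N618.PD.pull (k + k + 2) k (fun i => Fin.castAdd 2 (Fin.natAdd k i))
    (fun i j h => Fin.natAdd_injective k k (Fin.castAdd_injective (k + k) 2 h)) _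
    (Pool.Agent.N604.MW.dmean_generic k hk)
  filter_upwards [h1, h2, h3] with α ha1 ha2 ha3 hpos
  have hne : (Fin.natAdd (k + k) (0 : Fin 2)) ≠ Fin.natAdd (k + k) (1 : Fin 2) :=
    fun h => absurd (Fin.natAdd_injective 2 (k + k) h) (by decide)
  obtain ⟨v, C0, κ, σ, hκ, hσ, ν0, hS⟩ := Pool.Agent.N732.ArbD.scaleD_core hk
    (fun i => α (Fin.castAdd 2 (Fin.castAdd k i))) (fun i => α (Fin.castAdd 2 (Fin.natAdd k i)))
    (α (Fin.natAdd (k + k) 0)) (α (Fin.natAdd (k + k) 1)) (fun _ => hpos _) (fun _ => hpos _) (hpos _) (hpos _)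
    (ha1.1 _) (ha1.1 _) (ha1.2 _ _ hne) ha2 ha3
  have hval : ∀ (t t' : Fin k → ℕ) (q : Fin 2 → ℕ), val k α (Fin.append (Fin.append t t') q) =
      Pool.Agent.N604.MW.dv k (fun i => α (Fin.castAdd 2 (Fin.castAdd k i))) t +
      Pool.Agent.N604.MW.dv k (fun i => α (Fin.castAdd 2 (Fin.natAdd k i))) t' +
      (Pool.Agent.N604.MW.da k (α (Fin.natAdd (k + k) 0)) (q 0) +
       Pool.Agent.N604.MW.da k (α (Fin.natAdd (k + k) 1)) (q 1)) := by
    intro t t' q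
    unfold val Pool.Agent.N604.MW.dv Pool.Agent.N604.MW.da
    rw [Fin.sum_univ_add, Fin.sum_univ_add, Fin.sum_univ_two]
    simp only [Fin.append_left, Fin.append_right]
  refine ⟨?_, ?_⟩
  · obtain ⟨ν1, h1⟩ := Pool.Agent.N732.ArbD.part1 hk hS
    refine ⟨σ / 4, κ, by linarith, hκ, 2 * v + 1, ν1, by omega, ?_⟩
    intro ν hν T T' hT hT' hcard N hN1 hN2
    have hcast : ((2 : ℝ) ^ ν) = ((2 ^ ν : ℕ) : ℝ) := by push_cast; ring
    rw [hcast] at hcard ⊢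
    obtain ⟨_, S, hS1, hS2⟩ := h1 ν hν T T' hT hT' hcard N hN1 hN2
    classical
    refine ⟨S.map ⟨fun z => (z.1, z.2.1, ![z.2.2.1, z.2.2.2]), ?_⟩, ?_, ?_⟩
    · rintro ⟨a, b, c, d⟩ ⟨a', b', c', d'⟩ h
      simp only [Prod.mk.injEq] at h
      obtain ⟨e1, e2, e3⟩ := h
      have e4 := congrFun e3 0
      have e5 := congrFun e3 1
      simp only [Matrix.cons_val_zero, Matrix.cons_val_one] at e4 e5
      rw [e1, e2, e4, e5]
    · intro z hz
      rw [Finset.mem_map] at hz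
      obtain ⟨y, hy, rfl⟩ := hz
      obtain ⟨y1, y2, y3, y4, y5⟩ := hS1 y hy
      refine ⟨y1, y2, ?_, ?_⟩
      · intro j
        fin_cases j
        · exact y3
        · exact y4
      · show val k α (Fin.append (Fin.append y.1 y.2.1) ![y.2.2.1, y.2.2.2]) = N
        rw [hval]
        simpa using y5
    · rw [Finset.card_map]
      exact hS2
  · refine ⟨σ / (8 * k), by positivity, fun A hA => ?_⟩
    obtain ⟨N0, hN0⟩ := Pool.Agent.N732.ArbD.part2 hk hκ hS (fun i => A (Fin.castAdd k i))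
      (fun i => A (Fin.natAdd k i)) (fun i => hA _) (fun i => hA _)
    refine ⟨N0, fun N hN => ?_⟩
    obtain ⟨t, t', p, p', ht, ht', hp, hp', hs⟩ := hN0 N hN
    refine ⟨Fin.append (Fin.append t t') ![p, p'], ?_, ?_, ?_⟩
    · intro i
      rw [Fin.append_left]
      refine Fin.addCases (fun j => ?_) (fun j => ?_) i
      · rw [Fin.append_left]; exact ht j
      · rw [Fin.append_right]; exact ht' j
    · intro j
      rw [Fin.append_right]
      fin_cases j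
      · exact hp
      · exact hp'
    · rw [hval]
      simpa using hs

end Pool.Agent.Results.MP_570bef_nt.ArbitrarySets
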