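import Mathlib
import Pool.Agent.N604.MW.DFin

/-!
# Generic diagonal forms of degree `k` in `2k + 1` primes

For every `k ≥ 2` and almost every `(α_1, ..., α_{2k+1}) ∈ (0, ∞) ^ (2k+1)`, every large integer `N` has
at least `κ N ^ (1 + 1/k) / (log N) ^ (2k+1)` representations
`N = ⌊α_1 p_1 ^ k⌋ + ... + ⌊α_{2k+1} p_{2k+1} ^ k⌋` with primes `p_i`. This is the order of magnitude
predicted by the circle method.
-/

namespace Pool.Agent.Results.MP_570bef_nt.GenericDiagonalPrimes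

open MeasureTheory

theorem result (k : ℕ) (hk : 2 ≤ k) :
    ∀ᵐ α : Fin (2 * k + 1) → ℝ, (∀ i, 0 < α i) → ∃ κ : ℝ, 0 < κ ∧ ∃ N0 : ℕ, ∀ N : ℕ, N0 ≤ N →
      ∃ S : Finset (Fin (2 * k + 1) → ℕ),
        (∀ p ∈ S, (∀ i, (p i).Prime) ∧ ∑ i, ⌊α i * (p i : ℝ) ^ k⌋ = (N : ℤ)) ∧
        κ * (N : ℝ) ^ (1 + 1 / (k : ℝ)) / Real.log N ^ (2 * k + 1) ≤ S.card :=
  Pool.Agent.N604.MW.dgen1 k hk (2 * k + 1) (by ring)

end Pool.Agent.Results.MP_570bef_nt.GenericDiagonalPrimes
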