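import Mathlib
import Pool.Agent.N604.MW.KKFin2

/-!
# The asymptotic formula in `k + 28` variables for generic lower-order terms

Let `k ≥ 225`, `s ≥ k + 28` and `c ∈ (0, ∞) ^ s` (for instance `c = (1, ..., 1)`). For almost all lower-order
coefficients `θ ∈ (ℝ ^ (k - 1)) ^ s` and all `Δ > 0` the number of `x ∈ ℤ ^ s` with
`y ≤ ∑ (c_i |x_i| ^ k + θ_{i,k-1} x_i ^ (k-1) + ... + θ_{i,1} x_i) < y + Δ` is asymptotic to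
`Δ (2 Γ(1 + 1/k)) ^ s / Γ(s/k) (c_1 ... c_s) ^ (-1/k) y ^ (s/k - 1)` as `y → ∞`.
-/

namespace Pool.Agent.Results.MP_570bef_nt.GenericLowerOrderTerms

open MeasureTheory Filter

/-- The function `c |x| ^ k + θ_0 x + θ_1 x ^ 2 + ... + θ_{k-2} x ^ (k-1)`. -/
noncomputable def g (k : ℕ) (c : ℝ) (θ : Fin (k - 1) → ℝ) (x : ℤ) : ℝ :=
  c * |(x : ℝ)| ^ k + ∑ j : Fin (k - 1), θ j * (x : ℝ) ^ ((j : ℕ) + 1)

/-- The number of `x ∈ ℤ ^ s` with `y ≤ g_1(x_1) + ... + g_s(x_s) < y + Δ`. -/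
noncomputable def count (s k : ℕ) (c : Fin s → ℝ) (θ : Fin s → Fin (k - 1) → ℝ) (y Δ : ℝ) : ℕ :=
  {x : Fin s → ℤ | y ≤ ∑ i, g k (c i) (θ i) (x i) ∧ ∑ i, g k (c i) (θ i) (x i) < y + Δ}.ncard

theorem result (k s : ℕ) (hk : 225 ≤ k) (hs : k + 28 ≤ s) (c : Fin s → ℝ) (hc : ∀ i, 0 < c i) :
    ∀ᵐ θ : Fin s → Fin (k - 1) → ℝ, ∀ Δ : ℝ, 0 < Δ →
      Tendsto (fun y : ℝ => (count s k c θ y Δ : ℝ) / y ^ ((s : ℝ) / k - 1)) atTop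
        (nhds (Δ * ((2 * Real.Gamma (1 + 1 / (k : ℝ))) ^ s / Real.Gamma ((s : ℝ) / k) *
          ∏ i, c i ^ (-(1 / (k : ℝ)))))) := by
  obtain ⟨d, rfl⟩ : ∃ d, k = d + 1 := ⟨k - 1, by omega⟩
  exact Pool.Agent.N604.MW.kk_final d s hk (by omega) c hc

end Pool.Agent.Results.MP_570bef_nt.GenericLowerOrderTerms
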