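import Mathlib
import Pool.Agent.N604.MW.YFin3

/-!
# Waring–Goldbach with generic shifts

Let `k ≥ 2` and let `P_1, ..., P_{2k+1}` be arbitrary real polynomials of degree `k` with positive leading
coefficients, for instance all equal to `x ^ k`. For almost all real shifts `t_1, ..., t_{2k+1}`, every large integer
`N` has at least `κ N ^ (1 + 1/k) / (log N) ^ (2k+1)` representations
`N = ⌊P_1(p_1 + t_1)⌋ + ... + ⌊P_{2k+1}(p_{2k+1} + t_{2k+1})⌋` with primes `p_i`. This is the order of magnitude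
predicted by the circle method.
-/

namespace Pool.Agent.Results.MP_570bef_nt.GenericShifts

open MeasureTheory

theorem result (k : ℕ) (hk : 2 ≤ k) (P : Fin (2 * k + 1) → Polynomial ℝ)
    (hP : ∀ i, (P i).natDegree = k ∧ 0 < (P i).leadingCoeff) :
    ∀ᵐ t : Fin (2 * k + 1) → ℝ, ∃ κ : ℝ, 0 < κ ∧ ∃ N0 : ℕ, ∀ N : ℕ, N0 ≤ N →
      ∃ S : Finset (Fin (2 * k + 1) → ℕ),
        (∀ p ∈ S, (∀ i, (p i).Prime) ∧ ∑ i, ⌊(P i).eval ((p i : ℝ) + t i)⌋ = (N : ℤ)) ∧
        κ * (N : ℝ) ^ (1 + 1 / (k : ℝ)) / Real.log N ^ (2 * k + 1) ≤ S.card :=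
  Pool.Agent.N604.MW.ygs1 k hk P hP

end Pool.Agent.Results.MP_570bef_nt.GenericShifts
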